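import Mathlib

set_option autoImplicit false

/-!
A smooth variational principle in a Hilbert space: a continuous function bounded below on a closed
set has, near every almost minimal point, a point at which it has a quadratic lower tangent.
-/

namespace Pool.Agent.TH789.VT

open Set Metric Filter Topology

theorem near_min {H : Type*} {C : Set H} {G : H → ℝ} {x0 : H} (hx0 : x0 ∈ C) {m : ℝ} (hm : ∀ x ∈ C, m ≤ G x)
    {ε : ℝ} (hε : 0 < ε) : ∃ x ∈ C, G x ≤ G x0 ∧ ∀ y ∈ C, G x ≤ G y + ε := by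
  have hbdd : BddBelow (G '' C) := ⟨m, by rintro _ ⟨x, hx, rfl⟩; exact hm x hx⟩
  have hne : (G '' C).Nonempty := ⟨_, x0, hx0, rfl⟩
  by_cases h : G x0 ≤ sInf (G '' C) + ε
  · refine ⟨x0, hx0, le_rfl, fun y hy => ?_⟩
    have h1 : sInf (G '' C) ≤ G y := csInf_le hbdd ⟨y, hy, rfl⟩
    linarith
  · push Not at h
    obtain ⟨_, ⟨x, hx, rfl⟩, h2⟩ := exists_lt_of_csInf_lt hne (lt_add_of_pos_right _ hε)
    refine ⟨x, hx, by linarith, fun y hy => ?_⟩
    have h1 : sInf (G '' C) ≤ G y := csInf_le hbdd ⟨y, hy, rfl⟩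
    linarith

variable {H : Type*} [NormedAddCommGroup H] [InnerProductSpace ℝ H]

theorem bp [CompleteSpace H] {C : Set H} (hC : IsClosed C) {Ψ : H → ℝ} (hΨ : Continuous Ψ)
    {m : ℝ} (hm : ∀ x ∈ C, m ≤ Ψ x) {μ σ : ℝ} (hμ : 0 < μ) (hσ : 0 < σ) {x0 : H} (hx0 : x0 ∈ C) :
    ∃ x1 ∈ C, Ψ x1 ≤ Ψ x0 ∧ ∃ z ∈ C, ‖z - x1‖ ≤ σ ∧ ∃ u : H, ‖u‖ ≤ 2 * μ * σ ∧
      ∀ x ∈ C, Ψ z + inner ℝ u (x - z) - μ * ‖x - z‖ ^ 2 ≤ Ψ x := by
  set μs : ℕ → ℝ := fun n => μ / 2 / 2 ^ n with hμs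
  have hμp : ∀ n, 0 < μs n := fun n => by positivity
  set εs : ℕ → ℝ := fun n => μs n * (σ / 2 / 2 ^ n) ^ 2 with hεs
  have hεp : ∀ n, 0 < εs n := fun n => by positivity
  -- the step
  have hstep : ∀ q : ℕ × H × (H → ℝ), ∃ x' : H, q.2.1 ∈ C → (∀ x ∈ C, m ≤ q.2.2 x) →
      x' ∈ C ∧ q.2.2 x' ≤ q.2.2 q.2.1 ∧ ∀ y ∈ C, q.2.2 x' ≤ q.2.2 y + εs q.1 := by
    intro q
    by_cases h1 : q.2.1 ∈ C
    · by_cases h2 : ∀ x ∈ C, m ≤ q.2.2 x
      · obtain ⟨x, hx, h3, h4⟩ := near_min h1 h2 (hεp q.1)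
        exact ⟨x, fun _ _ => ⟨hx, h3, h4⟩⟩
      · exact ⟨0, fun _ h => absurd h h2⟩
    · exact ⟨0, fun h => absurd h h1⟩
  choose st hst using hstep
  -- the states: index, point, function
  let nx : ℕ × H × (H → ℝ) → ℕ × H × (H → ℝ) := fun q =>
    (q.1 + 1, st (q.1 + 1, q.2.1, fun x => q.2.2 x + μs q.1 * ‖x - q.2.1‖ ^ 2),
      fun x => q.2.2 x + μs q.1 * ‖x - q.2.1‖ ^ 2)
  let q : ℕ → ℕ × H × (H → ℝ) := fun n => Nat.rec (0, st (0, x0, Ψ), Ψ) (fun _ p => nx p) n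
  have qs : ∀ n, q (n + 1) = nx (q n) := fun n => rfl
  have q1 : ∀ n, (q n).1 = n := by
    intro n
    induction n with
    | zero => rfl
    | succ n ih => rw [qs]; show (q n).1 + 1 = n + 1; rw [ih]
  set x : ℕ → H := fun n => (q n).2.1 with hx
  set G : ℕ → H → ℝ := fun n => (q n).2.2 with hG
  have Gs : ∀ n y, G (n + 1) y = G n y + μs n * ‖y - x n‖ ^ 2 := by
    intro n y
    have : G (n + 1) y = (q n).2.2 y + μs (q n).1 * ‖y - (q n).2.1‖ ^ 2 := rfl
    rw [this, q1]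
  have Gm : ∀ n, ∀ y ∈ C, m ≤ G n y := by
    intro n
    induction n with
    | zero => exact hm
    | succ n ih =>
      intro y hy
      rw [Gs]
      have := hμp n
      have h1 := ih y hy
      have h2 : 0 ≤ μs n * ‖y - x n‖ ^ 2 := by positivity
      linarith
  have xs : ∀ n, x (n + 1) = st (n + 1, x n, G (n + 1)) := by
    intro n
    have : x (n + 1) = st ((q n).1 + 1, (q n).2.1,
      fun y => (q n).2.2 y + μs (q n).1 * ‖y - (q n).2.1‖ ^ 2) := rfl
    rw [this, q1]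
    congr 1
    refine Prod.ext rfl (Prod.ext rfl ?_)
    funext y
    exact (Gs n y).symm
  have xC : ∀ n, x n ∈ C := by
    intro n
    induction n with
    | zero => exact (hst (0, x0, Ψ) hx0 hm).1
    | succ n ih => rw [xs]; exact (hst (n + 1, x n, G (n + 1)) ih (Gm (n + 1))).1
  have x0le : Ψ (x 0) ≤ Ψ x0 := (hst (0, x0, Ψ) hx0 hm).2.1
  have xle : ∀ n, G (n + 1) (x (n + 1)) ≤ G (n + 1) (x n) := by
    intro n
    have h := (hst (n + 1, x n, G (n + 1)) (xC n) (Gm (n + 1))).2.1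
    rw [← xs] at h
    exact h
  have xnear : ∀ n, ∀ y ∈ C, G n (x n) ≤ G n y + εs n := by
    intro n
    cases n with
    | zero => exact (hst (0, x0, Ψ) hx0 hm).2.2
    | succ n =>
      have h := (hst (n + 1, x n, G (n + 1)) (xC n) (Gm (n + 1))).2.2
      rw [← xs] at h
      exact h
  have hd : ∀ n, dist (x n) (x (n + 1)) ≤ σ / 2 / 2 ^ n := by
    intro n
    have h1 := xle n
    rw [Gs, Gs, sub_self, norm_zero] at h1
    have h2 := xnear n (x (n + 1)) (xC (n + 1))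
    have h3 : μs n * ‖x (n + 1) - x n‖ ^ 2 ≤ μs n * (σ / 2 / 2 ^ n) ^ 2 := by
      have : εs n = μs n * (σ / 2 / 2 ^ n) ^ 2 := rfl
      nlinarith
    have h4 : ‖x (n + 1) - x n‖ ^ 2 ≤ (σ / 2 / 2 ^ n) ^ 2 := le_of_mul_le_mul_left h3 (hμp n)
    rw [dist_comm, dist_eq_norm]
    exact (pow_le_pow_iff_left₀ (norm_nonneg _) (by positivity) two_ne_zero).1 h4
  obtain ⟨z, hz⟩ := cauchySeq_tendsto_of_complete (cauchySeq_of_le_geometric_two hd)
  have hzC : z ∈ C := hC.mem_of_tendsto hz (Eventually.of_forall xC)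
  have hzd : ∀ n, ‖z - x n‖ ≤ σ := by
    intro n
    have h1 := dist_le_of_le_geometric_two_of_tendsto hd hz n
    rw [dist_comm, dist_eq_norm] at h1
    have h2 : σ / 2 ^ n ≤ σ := div_le_self hσ.le (one_le_pow₀ (by norm_num))
    exact h1.trans h2
  -- the vectors T
  set T : ℕ → H := fun n => ∑ i ∈ Finset.range n, μs i • (z - x i) with hT
  have Ts : ∀ n, T (n + 1) = T n + μs n • (z - x n) := fun n => Finset.sum_range_succ _ _
  have hTd : ∀ n, dist (T n) (T (n + 1)) ≤ (μ * σ) / 2 / 2 ^ n := by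
    intro n
    rw [Ts, dist_eq_norm]
    have h1 : T n - (T n + μs n • (z - x n)) = -(μs n • (z - x n)) := by abel
    rw [h1, norm_neg, norm_smul, Real.norm_of_nonneg (hμp n).le]
    calc μs n * ‖z - x n‖ ≤ μs n * σ := mul_le_mul_of_nonneg_left (hzd n) (hμp n).le
      _ = (μ * σ) / 2 / 2 ^ n := by rw [hμs]; ring
  obtain ⟨Tl, hTl⟩ := cauchySeq_tendsto_of_complete (cauchySeq_of_le_geometric_two hTd)
  have hTn : ‖Tl‖ ≤ μ * σ := by
    have h1 := dist_le_of_le_geometric_two_of_tendsto₀ hTd hTl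
    have h2 : T 0 = 0 := by simp [hT]
    rwa [h2, dist_zero_left] at h1
  -- the sums of the weights
  set M : ℕ → ℝ := fun n => ∑ i ∈ Finset.range n, μs i with hM
  have hMl : Tendsto M atTop (𝓝 μ) := (hasSum_geometric_two' μ).tendsto_sum_nat
  -- the inequality at stage n
  have key : ∀ n, ∀ y ∈ C, Ψ (x n) ≤ Ψ y + (M n * (‖y - z‖ ^ 2 - ‖x n - z‖ ^ 2) +
      2 * inner ℝ (y - z) (T n) - 2 * inner ℝ (x n - z) (T n)) + εs n := by
    intro n y hy
    have hGn : ∀ n w, G n w = Ψ w + ∑ i ∈ Finset.range n, μs i * ‖w - x i‖ ^ 2 := by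
      intro n w
      induction n with
      | zero => simp [hG, q]
      | succ n ih => rw [Gs, ih, Finset.sum_range_succ]; ring
    have hexp : ∀ w, ∑ i ∈ Finset.range n, μs i * ‖w - x i‖ ^ 2 =
        M n * ‖w - z‖ ^ 2 + 2 * inner ℝ (w - z) (T n) +
          ∑ i ∈ Finset.range n, μs i * ‖z - x i‖ ^ 2 := by
      intro w
      rw [hM, hT]
      simp only
      rw [inner_sum, Finset.sum_mul, Finset.mul_sum, ← Finset.sum_add_distrib,
        ← Finset.sum_add_distrib]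
      refine Finset.sum_congr rfl fun i _ => ?_
      have h1 : w - x i = (w - z) + (z - x i) := by abel
      rw [h1, norm_add_sq_real, inner_smul_right]
      ring
    have h1 := xnear n y hy
    rw [hGn, hGn, hexp (x n), hexp y] at h1
    linarith
  refine ⟨x 0, xC 0, x0le, z, hzC, hzd 0, -((2 : ℝ) • Tl), ?_, fun y hy => ?_⟩
  · rw [norm_neg, norm_smul, Real.norm_of_nonneg (by norm_num)]
    linarith
  · have l1 : Tendsto (fun n => Ψ (x n)) atTop (𝓝 (Ψ z)) := (hΨ.tendsto z).comp hz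
    have l2 : Tendsto εs atTop (𝓝 0) := by
      have h1 : Tendsto (fun n : ℕ => (1 / 2 : ℝ) ^ n) atTop (𝓝 0) :=
        tendsto_pow_atTop_nhds_zero_of_lt_one (by norm_num) (by norm_num)
      have h2 : εs = fun n : ℕ => (μ / 2) * (σ / 2) ^ 2 *
          ((1 / 2 : ℝ) ^ n * (1 / 2 : ℝ) ^ n * (1 / 2 : ℝ) ^ n) := by
        funext n
        rw [hεs, hμs]
        simp only [one_div, inv_pow]
        ring
      rw [h2]
      have h3 := ((h1.mul h1).mul h1).const_mul ((μ / 2) * (σ / 2) ^ 2)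
      simpa using h3
    have l3 : Tendsto (fun n => x n - z) atTop (𝓝 0) := by
      have := hz.sub_const z
      rwa [sub_self] at this
    have l4 : Tendsto (fun n => ‖x n - z‖ ^ 2) atTop (𝓝 0) := by
      have := l3.norm.pow 2
      simpa using this
    have l5 : Tendsto (fun n => inner ℝ (x n - z) (T n)) atTop (𝓝 0) := by
      have := l3.inner (𝕜 := ℝ) hTl
      simpa using this
    have l6 : Tendsto (fun n => inner ℝ (y - z) (T n)) atTop (𝓝 (inner ℝ (y - z) Tl)) :=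
      tendsto_const_nhds.inner hTl
    have l7 : Tendsto (fun n => Ψ y + (M n * (‖y - z‖ ^ 2 - ‖x n - z‖ ^ 2) +
      2 * inner ℝ (y - z) (T n) - 2 * inner ℝ (x n - z) (T n)) + εs n) atTop
      (𝓝 (Ψ y + (μ * (‖y - z‖ ^ 2 - 0) + 2 * inner ℝ (y - z) Tl - 2 * 0) + 0)) :=
      (tendsto_const_nhds.add (((hMl.mul (tendsto_const_nhds.sub l4)).add
        (l6.const_mul 2)).sub (l5.const_mul 2))).add l2
    have h1 := le_of_tendsto_of_tendsto' l1 l7 (fun n => key n y hy)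
    rw [inner_neg_left, inner_smul_left, real_inner_comm]
    simp only [conj_trivial]
    linarith

end Pool.Agent.TH789.VT
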