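import Pool.Agent.TH789.BC.Ext
import Pool.Agent.TH789.VT.Bp

set_option autoImplicit false

/-!
Attained maxima of families of affine functions on a Hilbert space: a countable family has no
point of quadratic growth along a subspace of finite codimension.
-/

namespace Pool.Agent.TH789.VT

open Set Metric Filter Topology

variable {H : Type*} [NormedAddCommGroup H] [InnerProductSpace ℝ H]

/-- The affine function with slope `p.1` and constant term `p.2`. -/
noncomputable def af (p : H × ℝ) (x : H) : ℝ := inner ℝ p.1 x + p.2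

theorem af_add (p : H × ℝ) (x v : H) : af p (x + v) = af p x + inner ℝ p.1 v := by
  unfold af
  rw [inner_add_right]
  ring

theorem af_cont (p : H × ℝ) : Continuous (af p) := by
  unfold af
  fun_prop

/-- `F` is the pointwise maximum of the affine functions `af p`, `p ∈ P`. -/
structure Env (P : Set (H × ℝ)) (F : H → ℝ) : Prop where
  le : ∀ p ∈ P, ∀ x, af p x ≤ F x
  att : ∀ x, ∃ p ∈ P, af p x = F x

variable {P : Set (H × ℝ)} {F : H → ℝ}

theorem env_bdd [CompleteSpace H] (hE : Env P F) (x : H) :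
    ∃ δ M : ℝ, 0 < δ ∧ ∀ y : H, ‖y - x‖ ≤ δ → F y ≤ M := by
  have hcl : ∀ n : ℕ, IsClosed {y : H | ∀ b ∈ P, af b y ≤ (n : ℝ)} := by
    intro n
    have : {y : H | ∀ b ∈ P, af b y ≤ (n : ℝ)} = ⋂ b ∈ P, {y | af b y ≤ (n : ℝ)} := by
      ext y
      simp only [Set.mem_ofPred_eq, mem_iInter]
    rw [this]
    exact isClosed_biInter fun b _ => isClosed_le (af_cont b) continuous_const
  have hun : (⋃ n : ℕ, {y : H | ∀ b ∈ P, af b y ≤ (n : ℝ)}) = univ := by
    rw [eq_univ_iff_forall]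
    intro y
    obtain ⟨n, hn⟩ := exists_nat_ge (F y)
    exact mem_iUnion.2 ⟨n, fun b hb => (hE.le b hb y).trans hn⟩
  obtain ⟨n, y0, hy0⟩ := nonempty_interior_of_iUnion_of_closed hcl hun
  rw [mem_interior_iff_mem_nhds, Metric.mem_nhds_iff] at hy0
  obtain ⟨ε, hε, hball⟩ := hy0
  refine ⟨ε / 4, (F ((2 : ℝ) • x - y0) + n) / 2, by positivity, fun y hy => ?_⟩
  obtain ⟨b, hb, hby⟩ := hE.att y
  have h2 : y0 + (2 : ℝ) • (y - x) ∈ ball y0 ε := by
    rw [mem_ball, dist_eq_norm, add_sub_cancel_left, norm_smul, Real.norm_of_nonneg (by norm_num)]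
    linarith
  have h3 : af b (y0 + (2 : ℝ) • (y - x)) ≤ n := hball h2 b hb
  have h4 := hE.le b hb ((2 : ℝ) • x - y0)
  have h5 : af b y = (1 / 2) * (af b ((2 : ℝ) • x - y0) + af b (y0 + (2 : ℝ) • (y - x))) := by
    unfold af
    rw [inner_sub_right, inner_add_right, inner_smul_right, inner_smul_right, inner_sub_right]
    ring
  rw [← hby, h5]
  linarith

theorem env_loc [CompleteSpace H] (hE : Env P F) (x : H) :
    ∃ δ L : ℝ, 0 < δ ∧ 0 < L ∧ ∀ y : H, ‖y - x‖ ≤ δ → ∀ p ∈ P, af p y = F y → ‖p.1‖ ≤ L := by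
  obtain ⟨δ, M, hδ, hM⟩ := env_bdd hE x
  obtain ⟨p0, hp0, hp0x⟩ := hE.att x
  refine ⟨δ / 2, (|M| + |F x| + ‖p0.1‖ * δ) / (δ / 2) + 1, by positivity, by positivity,
    fun y hy p hp hpy => ?_⟩
  have h0 : F x - ‖p0.1‖ * δ ≤ F y := by
    have h1 := hE.le p0 hp0 y
    have h2 : af p0 y = F x + inner ℝ p0.1 (y - x) := by
      rw [← hp0x, ← af_add]
      congr 1
      abel
    have h3 := abs_real_inner_le_norm p0.1 (y - x)
    have h4 := neg_abs_le (inner ℝ p0.1 (y - x))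
    have h5 : ‖p0.1‖ * ‖y - x‖ ≤ ‖p0.1‖ * δ := by
      have : ‖y - x‖ ≤ δ := by linarith
      gcongr
    linarith
  by_cases hz : p.1 = 0
  · rw [hz, norm_zero]
    positivity
  · have hn : 0 < ‖p.1‖ := norm_pos_iff.2 hz
    have h1 : ‖y + (δ / 2 / ‖p.1‖) • p.1 - x‖ ≤ δ := by
      have h2 : y + (δ / 2 / ‖p.1‖) • p.1 - x = (y - x) + (δ / 2 / ‖p.1‖) • p.1 := by abel
      rw [h2]
      refine (norm_add_le _ _).trans ?_
      rw [norm_smul, Real.norm_of_nonneg (by positivity)]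
      have h3 : δ / 2 / ‖p.1‖ * ‖p.1‖ = δ / 2 := by field_simp
      linarith
    have h2 := (hE.le p hp _).trans (hM _ h1)
    rw [af_add, inner_smul_right, real_inner_self_eq_norm_sq, hpy] at h2
    have h3 : δ / 2 / ‖p.1‖ * ‖p.1‖ ^ 2 = δ / 2 * ‖p.1‖ := by field_simp
    rw [h3] at h2
    have h4 : δ / 2 * ‖p.1‖ ≤ |M| + |F x| + ‖p0.1‖ * δ := by
      have := le_abs_self M
      have := neg_abs_le (F x)
      linarith
    have h5 : ‖p.1‖ ≤ (|M| + |F x| + ‖p0.1‖ * δ) / (δ / 2) := by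
      rw [le_div_iff₀ (by positivity)]
      linarith
    linarith

/-- Local Lipschitz estimate at an active point. -/
theorem env_lip (hE : Env P F) {y y' : H} {p : H × ℝ} (hpy : af p y = F y)
    (hp : p ∈ P) {L : ℝ} (hL : ‖p.1‖ ≤ L) : F y ≤ F y' + L * ‖y - y'‖ := by
  have h1 := hE.le p hp y'
  have h2 : af p y = af p y' + inner ℝ p.1 (y - y') := by
    rw [← af_add]
    congr 1
    abel
  have h3 := real_inner_le_norm p.1 (y - y')
  have h4 : ‖p.1‖ * ‖y - y'‖ ≤ L * ‖y - y'‖ := mul_le_mul_of_nonneg_right hL (norm_nonneg _)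
  linarith

theorem env_cont [CompleteSpace H] (hE : Env P F) : Continuous F := by
  rw [Metric.continuous_iff]
  intro x ε hε
  obtain ⟨δ, L, hδ, hL, hloc⟩ := env_loc hE x
  refine ⟨min δ (ε / (2 * L)), by positivity, fun y hy => ?_⟩
  rw [dist_eq_norm] at hy
  have hy1 : ‖y - x‖ ≤ δ := hy.le.trans (min_le_left _ _)
  have hy2 : L * ‖y - x‖ ≤ ε / 2 := by
    have h1 : ‖y - x‖ ≤ ε / (2 * L) := hy.le.trans (min_le_right _ _)
    calc L * ‖y - x‖ ≤ L * (ε / (2 * L)) := by gcongr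
      _ = ε / 2 := by field_simp
  obtain ⟨p, hp, hpy⟩ := hE.att y
  obtain ⟨q, hq, hqx⟩ := hE.att x
  have h1 := env_lip hE (y' := x) hpy hp (hloc y hy1 p hp hpy)
  have h2 := env_lip hE (y' := y) hqx hq (hloc x (by simpa using hδ.le) q hq hqx)
  rw [norm_sub_rev] at h2
  rw [Real.dist_eq, abs_lt]
  constructor <;> linarith

/-- Quadratic growth of `F` at `z` along a subspace of finite codimension. -/
def Gd (F : H → ℝ) (z : H) : Prop :=
  ∃ (W : Set H) (u : H) (κ δ : ℝ), W.Finite ∧ 0 < κ ∧ 0 < δ ∧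
    ∀ v : H, (∀ w ∈ W, inner ℝ w v = 0) → ‖v‖ ≤ δ → F z + inner ℝ u v + κ * ‖v‖ ^ 2 ≤ F (z + v)

theorem gd_near (hinf : ¬ FiniteDimensional ℝ H) (hE : Env P F) {z : H} (hz : Gd F z)
    {p : H × ℝ} (hp : p ∈ P) (hpz : af p z = F z) {ε : ℝ} (hε : 0 < ε) :
    ∃ y, ‖y - z‖ < ε ∧ af p y < F y := by
  obtain ⟨W, u, κ, δ, hW, hκ, hδ, hg⟩ := hz
  by_contra hcon
  push Not at hcon
  obtain ⟨v, hv, hort⟩ := BC.exists_orth hinf ((hW.insert u).insert p.1)
    (ε := min δ (ε / 2)) (by positivity)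
  have h1 := hg v (fun w hw => hort w (by simp [hw])) (hv.le.trans (min_le_left _ _))
  have h2 : inner ℝ u v = 0 := hort u (by simp)
  have h3 : inner ℝ p.1 v = 0 := hort p.1 (by simp)
  have h4 := hcon (z + v) (by
    rw [add_sub_cancel_left, hv]
    exact (min_le_right _ _).trans_lt (by linarith))
  rw [af_add, h3, hpz] at h4
  have h5 : 0 < κ * ‖v‖ ^ 2 := by
    rw [hv]
    positivity
  linarith

theorem gd_move [CompleteSpace H] (hinf : ¬ FiniteDimensional ℝ H) (hE : Env P F) {z : H}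
    (hz : Gd F z) {p : H × ℝ} (hp : p ∈ P) {ε : ℝ} (hε : 0 < ε) :
    ∃ z', Gd F z' ∧ ‖z' - z‖ < ε ∧ af p z' < F z' := by
  by_cases hpz : af p z < F z
  · exact ⟨z, hz, by simpa using hε, hpz⟩
  have hpz' : af p z = F z := le_antisymm (hE.le p hp z) (not_lt.1 hpz)
  have hgd := hz
  obtain ⟨W, u, κ, δ, hW, hκ, hδ, hg⟩ := hgd
  obtain ⟨δ1, L, hδ1, hL, hloc⟩ := env_loc hE z
  set ρ := min δ (min (δ1 / 2) (ε / 4)) with hρ
  have hρ0 : 0 < ρ := by positivity
  have hρ1 : ρ ≤ δ := min_le_left _ _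
  have hρ2 : ρ ≤ δ1 / 2 := (min_le_right _ _).trans (min_le_left _ _)
  have hρ3 : ρ ≤ ε / 4 := (min_le_right _ _).trans (min_le_right _ _)
  obtain ⟨y, hy, hpy⟩ := gd_near hinf hE hz hp hpz' (ε := min ρ (κ * ρ ^ 2 / (64 * L)))
    (by positivity)
  have hy1 : ‖y - z‖ < ρ := hy.trans_le (min_le_left _ _)
  have hy2 : L * ‖y - z‖ ≤ κ * ρ ^ 2 / 64 := by
    have h1 : ‖y - z‖ ≤ κ * ρ ^ 2 / (64 * L) := hy.le.trans (min_le_right _ _)
    calc L * ‖y - z‖ ≤ L * (κ * ρ ^ 2 / (64 * L)) := by gcongr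
      _ = κ * ρ ^ 2 / 64 := by field_simp
  obtain ⟨q, hq, hqy⟩ := hE.att y
  set W' : Set H := insert (q.1 - p.1) W with hW'
  set C : Set H := {v | (∀ w ∈ W', inner ℝ w v = 0) ∧ ‖v‖ ≤ ρ} with hC
  have hCcl : IsClosed C := by
    have h1 : C = (⋂ w ∈ W', {v | inner ℝ w v = 0}) ∩ {v | ‖v‖ ≤ ρ} := by
      ext v
      simp only [hC, Set.mem_ofPred_eq, mem_inter_iff, mem_iInter]
    rw [h1]
    refine (isClosed_biInter fun w _ => ?_).inter (isClosed_le continuous_norm continuous_const)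
    exact isClosed_eq (by fun_prop) continuous_const
  set Ψ : H → ℝ := fun v => F (y + v) - inner ℝ u v - κ / 2 * ‖v‖ ^ 2 with hΨ
  have hF := env_cont hE
  have hΨc : Continuous Ψ := by
    rw [hΨ]
    fun_prop
  -- lower bound
  have hlow : ∀ v ∈ C, F z + κ / 2 * ‖v‖ ^ 2 - L * ‖y - z‖ ≤ Ψ v := by
    rintro v ⟨hv1, hv2⟩
    have h1 := hg v (fun w hw => hv1 w (mem_insert_of_mem _ hw)) (hv2.trans hρ1)
    obtain ⟨r, hr, hrv⟩ := hE.att (z + v)
    have h2 := env_lip hE (y' := y + v) hrv hr (hloc (z + v) (by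
      rw [add_sub_cancel_left]
      linarith) r hr hrv)
    have h3 : z + v - (y + v) = -(y - z) := by abel
    rw [h3, norm_neg] at h2
    have h4 : Ψ v = F (y + v) - inner ℝ u v - κ / 2 * ‖v‖ ^ 2 := rfl
    rw [h4]
    linarith
  have hup : Ψ 0 ≤ F z + L * ‖y - z‖ := by
    have h1 := env_lip hE (y' := z) hqy hq (hloc y (by linarith) q hq hqy)
    have h2 : Ψ 0 = F y := by simp [hΨ]
    rw [h2]
    exact h1
  have h0C : (0 : H) ∈ C := ⟨fun w _ => by simp, by simpa using hρ0.le⟩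
  obtain ⟨x1, hx1, hx1le, v0, hv0, hv0x, u', -, hbp⟩ := bp hCcl hΨc
    (m := F z - L * ‖y - z‖) (fun v hv => by
      have h1 := hlow v hv
      have h2 : 0 ≤ κ / 2 * ‖v‖ ^ 2 := by positivity
      linarith) (μ := κ / 4) (σ := ρ / 4) (by positivity) (by positivity) h0C
  have hx1n : ‖x1‖ ≤ ρ / 4 := by
    have h1 := hlow x1 hx1
    have h2 : κ / 2 * ‖x1‖ ^ 2 ≤ κ / 2 * (ρ / 4) ^ 2 := by
      have h3 : κ / 2 * (ρ / 4) ^ 2 = κ * ρ ^ 2 / 32 := by ring
      rw [h3]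
      linarith
    have h3 : ‖x1‖ ^ 2 ≤ (ρ / 4) ^ 2 := le_of_mul_le_mul_left h2 (by positivity)
    exact (pow_le_pow_iff_left₀ (norm_nonneg _) (by positivity) two_ne_zero).1 h3
  have hv0n : ‖v0‖ ≤ ρ / 2 := by
    have h1 : v0 = (v0 - x1) + x1 := by abel
    rw [h1]
    linarith [norm_add_le (v0 - x1) x1]
  refine ⟨y + v0, ⟨W', u + u' + κ • v0, κ / 4, ρ / 2, hW.insert _, by positivity,
    by positivity, fun v hv1 hv2 => ?_⟩, ?_, ?_⟩
  · have hvC : v0 + v ∈ C := by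
      refine ⟨fun w hw => ?_, ?_⟩
      · rw [inner_add_right, hv0.1 w hw, hv1 w hw, add_zero]
      · linarith [norm_add_le v0 v]
    have h1 := hbp _ hvC
    have h2 : Ψ (v0 + v) = F (y + (v0 + v)) - inner ℝ u (v0 + v) - κ / 2 * ‖v0 + v‖ ^ 2 := rfl
    have h3 : Ψ v0 = F (y + v0) - inner ℝ u v0 - κ / 2 * ‖v0‖ ^ 2 := rfl
    rw [h2, h3, add_sub_cancel_left, inner_add_right, norm_add_sq_real] at h1
    rw [inner_add_left, inner_add_left, inner_smul_left, add_assoc y v0 v]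
    simp only [conj_trivial]
    linarith
  · have h1 : y + v0 - z = (y - z) + v0 := by abel
    rw [h1]
    linarith [norm_add_le (y - z) v0]
  · have h1 := hE.le q hq (y + v0)
    rw [af_add, hqy] at h1
    rw [af_add]
    have h2 : inner ℝ (q.1 - p.1) v0 = 0 := hv0.1 _ (mem_insert _ _)
    rw [inner_sub_left] at h2
    linarith

/-- A countable family of affine functions with attained maxima has no point of quadratic
growth. -/
theorem no_gd [CompleteSpace H] (hinf : ¬ FiniteDimensional ℝ H) (hP : P.Countable)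
    (hE : Env P F) (z : H) : ¬ Gd F z := by
  intro hz
  set K : Set H := closure {z | Gd F z} with hK
  have hKc : IsClosed K := isClosed_closure
  have hc : CompleteSpace K := hKc.completeSpace_coe
  have hne : Nonempty K := ⟨⟨z, subset_closure hz⟩⟩
  have hF := env_cont hE
  have hcount : Countable P := hP.to_subtype
  have hcl : ∀ p : P, IsClosed {x : K | F (x : H) ≤ af (p : H × ℝ) (x : H)} := by
    intro p
    have := af_cont (p : H × ℝ)
    exact isClosed_le (by fun_prop) (by fun_prop)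
  have hun : (⋃ p : P, {x : K | F (x : H) ≤ af (p : H × ℝ) (x : H)}) = univ := by
    rw [eq_univ_iff_forall]
    intro x
    obtain ⟨p, hp, hpx⟩ := hE.att (x : H)
    exact mem_iUnion.2 ⟨⟨p, hp⟩, hpx.ge⟩
  obtain ⟨p, x, hx⟩ := nonempty_interior_of_iUnion_of_closed hcl hun
  rw [mem_interior_iff_mem_nhds, Metric.mem_nhds_iff] at hx
  obtain ⟨ε, hε, hball⟩ := hx
  obtain ⟨z1, hz1, hz1x⟩ := Metric.mem_closure_iff.1 x.2 (ε / 2) (by positivity)
  obtain ⟨z2, hz2, hz2z, hlt⟩ := gd_move hinf hE hz1 p.2 (ε := ε / 2) (by positivity)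
  have h1 : (⟨z2, subset_closure hz2⟩ : K) ∈ ball x ε := by
    rw [mem_ball, Subtype.dist_eq]
    have h2 : dist z2 z1 < ε / 2 := by rwa [dist_eq_norm]
    have h3 : dist z1 (x : H) < ε / 2 := by rwa [dist_comm]
    have := dist_triangle z2 z1 (x : H)
    show dist z2 (x : H) < ε
    linarith
  have h2 : F z2 ≤ af (p : H × ℝ) z2 := hball h1
  linarith

/-- A bowl contains a point of quadratic growth. -/
theorem gd_of_slice [CompleteSpace H] (hE : Env P F) {x0 u : H} {r η : ℝ} (hr : 0 < r)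
    (hη : 0 < η) (h : ∀ v : H, ‖v‖ = r → F x0 + inner ℝ u v + η ≤ F (x0 + v)) :
    ∃ z, Gd F z := by
  have hF := env_cont hE
  set κ := η / (2 * r ^ 2) with hκ
  have hκ0 : 0 < κ := by positivity
  have hκr : κ * r ^ 2 = η / 2 := by
    rw [hκ]
    field_simp
  set Ψ : H → ℝ := fun v => F (x0 + v) - inner ℝ u v - κ * ‖v‖ ^ 2 with hΨ
  have hΨc : Continuous Ψ := by
    rw [hΨ]
    fun_prop
  obtain ⟨p0, hp0, hp0x⟩ := hE.att x0
  have h0C : (0 : H) ∈ closedBall (0 : H) r := by simpa using hr.le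
  obtain ⟨x1, hx1, hx1le, v0, hv0, hv0x, u', hu', hbp⟩ := bp
    (isClosed_closedBall : IsClosed (closedBall (0 : H) r)) hΨc
    (m := F x0 - ‖p0.1‖ * r - ‖u‖ * r - κ * r ^ 2) (fun v hv => by
      rw [mem_closedBall, dist_zero_right] at hv
      have h1 := hE.le p0 hp0 (x0 + v)
      rw [af_add, hp0x] at h1
      have h2 := abs_real_inner_le_norm p0.1 v
      have h3 := neg_abs_le (inner ℝ p0.1 v)
      have h4 := real_inner_le_norm u v
      have h5 : ‖p0.1‖ * ‖v‖ ≤ ‖p0.1‖ * r := by gcongr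
      have h6 : ‖u‖ * ‖v‖ ≤ ‖u‖ * r := by gcongr
      have h7 : κ * ‖v‖ ^ 2 ≤ κ * r ^ 2 := by gcongr
      have h8 : Ψ v = F (x0 + v) - inner ℝ u v - κ * ‖v‖ ^ 2 := rfl
      rw [h8]
      linarith) (μ := κ / 2) (σ := r / 4) (by positivity) (by positivity) h0C
  have hv0n : ‖v0‖ ≤ r := by
    rwa [mem_closedBall, dist_zero_right] at hv0
  have hv0lt : ‖v0‖ < r := by
    rcases hv0n.lt_or_eq with h1 | h1
    · exact h1
    · exfalso
      have h2 := h v0 h1
      have h3 := hbp x1 hx1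
      have h4 : Ψ v0 = F (x0 + v0) - inner ℝ u v0 - κ * ‖v0‖ ^ 2 := rfl
      have h5 : Ψ 0 = F x0 := by simp [hΨ]
      have h6 : ‖x1 - v0‖ ≤ r / 4 := by rwa [norm_sub_rev]
      have h7 : -(‖u'‖ * ‖x1 - v0‖) ≤ inner ℝ u' (x1 - v0) := by
        have := abs_real_inner_le_norm u' (x1 - v0)
        have := neg_abs_le (inner ℝ u' (x1 - v0))
        linarith
      have h8 : ‖u'‖ * ‖x1 - v0‖ ≤ 2 * (κ / 2) * (r / 4) * (r / 4) := by gcongr
      have h9 : κ / 2 * ‖x1 - v0‖ ^ 2 ≤ κ / 2 * (r / 4) ^ 2 := by gcongr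
      rw [h1, hκr] at h4
      have h10 : 2 * (κ / 2) * (r / 4) * (r / 4) + κ / 2 * (r / 4) ^ 2 =
        3 / 32 * (κ * r ^ 2) := by ring
      rw [hκr] at h10
      linarith
  refine ⟨x0 + v0, ∅, u + u' + (2 * κ) • v0, κ / 2, r - ‖v0‖, finite_empty, by positivity,
    by linarith, fun v _ hv2 => ?_⟩
  have hvC : v0 + v ∈ closedBall (0 : H) r := by
    rw [mem_closedBall, dist_zero_right]
    linarith [norm_add_le v0 v]
  have h1 := hbp _ hvC
  have h2 : Ψ (v0 + v) = F (x0 + (v0 + v)) - inner ℝ u (v0 + v) - κ * ‖v0 + v‖ ^ 2 := rfl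
  have h3 : Ψ v0 = F (x0 + v0) - inner ℝ u v0 - κ * ‖v0‖ ^ 2 := rfl
  rw [h2, h3, add_sub_cancel_left, inner_add_right, norm_add_sq_real] at h1
  rw [inner_add_left, inner_add_left, inner_smul_left, add_assoc x0 v0 v]
  simp only [conj_trivial]
  linarith

end Pool.Agent.TH789.VT
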